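import Pool.Agent.Helper97.AS2.Defs

/-!
# AS2-19 CondParity: the parity of the degree of the conductor

`deg A = 4 n + 1`, `deg B ≤ 6 n + 1`, so `D = dis A B` has degree `12 n + 3` (`4 ≠ 0` in `F`), in particular `D ≠ 0`.
* `Min (n + 1) A B`: the first part is `MinF A B`; the second: `A.natDegree + 4 = 4 n + 5 > 4 (n + 1)`.
* `natDegree D = ∑_{v} mult_v(D) deg v` over the monic irreducible divisors `v` of `D` (`= (dv D).filter Irreducible`, `mem_dv`): e.g. through `UniqueFactorizationMonoid.normalizedFactors D` (its elements are the monic irreducible divisors, the product is `D` up to a constant), `Multiset` to `Finset` with `count`; or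
  prove by strong induction on `natDegree D` for all `D ≠ 0` that for every function `e` with `v ^ (e v) ∣ D`, not `v ^ (e v + 1) ∣ D` for the monic irreducible `v`, the sum is the degree.
* Let `v` be a monic irreducible divisor of `D` of odd degree, `¬ Bad v A B`. If `v ^ 2 ∤ D`: `mult = 1`; `v ∤ A` (otherwise `v ∣ 27 B ^ 2`, `v ∣ B`, so `v ^ 2 ∣ D`). If `v ^ 2 ∣ D`: `v ∣ A` and `v ^ 2 ∤ B`, `v ∣ B`, and `v ^ 3 ∤ D` (otherwise `v ^ 3 ∣ 27 B ^ 2`, `B = v b`,
  `v ∣ b ^ 2`, `v ∣ b`, `v ^ 2 ∣ B`): `mult = 2`. So the term of `v` in `condDeg` is `mult_v(D) deg v`. For `v` of even degree both terms are even. Hence `condDeg A B ≡ natDegree D = 12 n + 3` modulo `2`.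
-/

set_option autoImplicit false

open Polynomial

namespace Pool.Agent.Helper97.AS2

open Pool.Agent.Helper31.AR Pool.Agent.Helper97.AS

variable {F : Type} [Field F] [Fintype F]

theorem natDegree_dis (h2 : (2 : F) ≠ 0) {n : ℕ} {A B : F[X]} (hA : A.natDegree = 4 * n + 1)
    (hB : B.natDegree ≤ 6 * n + 1) : (dis A B).natDegree = 12 * n + 3 := by
  have h4 : (4 : F) ≠ 0 := by
    have : (4 : F) = 2 * 2 := by norm_num
    rw [this]; exact mul_ne_zero h2 h2
  have hA0 : A ≠ 0 := by
    rintro rfl
    simp at hA
  have e4 : (4 : F[X]) = C (4 : F) := by rw [C_ofNat]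
  have e27 : (27 : F[X]) = C (27 : F) := by rw [C_ofNat]
  have d1 : ((4 : F[X]) * A ^ 3).natDegree = 12 * n + 3 := by
    rw [e4, natDegree_C_mul h4, natDegree_pow, hA]
    ring
  have d2 : ((27 : F[X]) * B ^ 2).natDegree ≤ 12 * n + 2 := by
    rw [e27]
    refine le_trans (natDegree_C_mul_le _ _) ?_
    rw [natDegree_pow]
    omega
  unfold dis
  rw [natDegree_add_eq_left_of_natDegree_lt]
  · exact d1
  · rw [d1]; omega

/-- The degree is the sum of the degrees of the prime factors with multiplicity. -/
private theorem natDegree_eq_sum {D : F[X]} (hD : D ≠ 0) : by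
    classical exact D.natDegree =
      ∑ v ∈ (dv D).filter (fun v => Irreducible v),
        (UniqueFactorizationMonoid.normalizedFactors D).count v * v.natDegree := by
  classical
  have h1 : (UniqueFactorizationMonoid.normalizedFactors D).toFinset =
      (dv D).filter (fun v => Irreducible v) := by
    ext v
    rw [Multiset.mem_toFinset, Finset.mem_filter, mem_dv hD,
      Polynomial.mem_normalizedFactors_iff hD]
    tauto
  have h2 : D.natDegree = (UniqueFactorizationMonoid.normalizedFactors D).prod.natDegree := by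
    have := UniqueFactorizationMonoid.prod_normalizedFactors hD
    exact (natDegree_eq_of_degree_eq (degree_eq_degree_of_associated this)).symm
  rw [h2, natDegree_multiset_prod_of_monic, Finset.sum_multiset_map_count, h1]
  · simp only [smul_eq_mul]
  · intro f hf
    exact ((Polynomial.mem_normalizedFactors_iff hD).1 hf).2.1

theorem cond_parity (h2 : (2 : F) ≠ 0) (h3 : (3 : F) ≠ 0) {n : ℕ} {A B : F[X]}
    (hA : A.natDegree = 4 * n + 1) (hB : B.natDegree ≤ 6 * n + 1) (hmin : MinF A B)
    (hbad : ∀ v : F[X], v.Monic → Irreducible v → Odd v.natDegree → ¬ Bad v A B) :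
    Min (n + 1) A B ∧ dis A B ≠ 0 ∧ Odd (condDeg A B) := by
  classical
  have hdeg := natDegree_dis h2 hA hB
  have hD : dis A B ≠ 0 := by
    intro h
    rw [h] at hdeg
    simp at hdeg
  refine ⟨⟨hmin, ?_⟩, hD, ?_⟩
  · rintro ⟨h, -⟩
    omega
  have h27 : (27 : F) ≠ 0 := by
    have : (27 : F) = 3 * 3 * 3 := by norm_num
    rw [this]; exact mul_ne_zero (mul_ne_zero h3 h3) h3
  have u27 : IsUnit (27 : F[X]) := by
    have : (27 : F[X]) = C (27 : F) := by rw [C_ofNat]
    rw [this]
    exact isUnit_C.2 (isUnit_iff_ne_zero.2 h27)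
  have key : ((condDeg A B : ℕ) : ZMod 2) = ((12 * n + 3 : ℕ) : ZMod 2) := by
    rw [← hdeg, natDegree_eq_sum hD]
    unfold condDeg
    rw [Nat.cast_sum, Nat.cast_sum]
    refine Finset.sum_congr (by congr) ?_
    intro v hv
    rw [Finset.mem_filter, mem_dv hD] at hv
    obtain ⟨⟨hvm, hvd⟩, hvi⟩ := hv
    have hvp : Prime v := hvi.prime
    rcases Nat.even_or_odd v.natDegree with he | ho
    · have : ((v.natDegree : ℕ) : ZMod 2) = 0 := (ZMod.natCast_eq_zero_iff _ _).2 he.two_dvd
      rw [Nat.cast_mul, Nat.cast_mul, this, mul_zero, mul_zero]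
    · have hb := hbad v hvm hvi ho
      have hcount : (UniqueFactorizationMonoid.normalizedFactors (dis A B)).count v =
          (if v ∣ A then 2 else 1) := by
        by_cases hv2 : v ^ 2 ∣ dis A B
        · have hvA : v ∣ A := by
            by_contra hvA
            exact hb ⟨hv2, fun h => absurd h hvA⟩
          have hvB : ¬ v ^ 2 ∣ B := by
            intro h
            exact hb ⟨hv2, fun _ => h⟩
          rw [if_pos hvA]
          refine UniqueFactorizationMonoid.count_normalizedFactors_eq hvi hvm.normalize_eq_self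
            hv2 ?_
          intro h
          apply hvB
          have hA3 : v ^ 3 ∣ 4 * A ^ 3 := Dvd.dvd.mul_left (pow_dvd_pow_of_dvd hvA 3) _
          have h5 : v ^ 3 ∣ 27 * B ^ 2 := by
            have := dvd_sub h hA3
            unfold dis at this
            rwa [add_sub_cancel_left] at this
          have h6 : v ^ 3 ∣ B ^ 2 := (u27.dvd_mul_left).1 h5
          have h7 : v ∣ B := hvp.dvd_of_dvd_pow (dvd_trans (dvd_pow_self v (by norm_num)) h6)
          obtain ⟨b, rfl⟩ := h7
          have h8 : v ∣ b ^ 2 := by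
            have : v ^ 2 * v ∣ v ^ 2 * b ^ 2 := by
              have e1 : v ^ 2 * v = v ^ 3 := by ring
              have e2 : v ^ 2 * b ^ 2 = (v * b) ^ 2 := by ring
              rw [e1, e2]; exact h6
            exact (mul_dvd_mul_iff_left (pow_ne_zero 2 hvp.ne_zero)).1 this
          have h9 : v ∣ b := hvp.dvd_of_dvd_pow h8
          rw [pow_two]
          exact mul_dvd_mul_left v h9
        · have hvA : ¬ v ∣ A := by
            intro hvA
            apply hv2
            have hA3 : v ^ 2 ∣ 4 * A ^ 3 :=
              Dvd.dvd.mul_left (dvd_trans (pow_dvd_pow v (by norm_num)) (pow_dvd_pow_of_dvd hvA 3)) _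
            have h5 : v ∣ 27 * B ^ 2 := by
              have := dvd_sub hvd (dvd_trans (dvd_pow_self v (by norm_num)) hA3)
              unfold dis at this
              rwa [add_sub_cancel_left] at this
            have h6 : v ∣ B ^ 2 := (u27.dvd_mul_left).1 h5
            have h7 : v ∣ B := hvp.dvd_of_dvd_pow h6
            unfold dis
            exact dvd_add hA3 (Dvd.dvd.mul_left (pow_dvd_pow_of_dvd h7 2) _)
          rw [if_neg hvA]
          refine UniqueFactorizationMonoid.count_normalizedFactors_eq hvi hvm.normalize_eq_self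
            ?_ hv2
          rwa [pow_one]
      rw [hcount]
  have h12 : ((12 * n + 3 : ℕ) : ZMod 2) = 1 := by
    have : 12 * n + 3 = 2 * (6 * n + 1) + 1 := by ring
    rw [this, Nat.cast_add, Nat.cast_mul]
    have h : ((2 : ℕ) : ZMod 2) = 0 := by decide
    rw [h]; simp
  rw [h12] at key
  exact (ZMod.natCast_eq_one_iff_odd).1 key

end Pool.Agent.Helper97.AS2
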