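import Pool.Agent.Helper97.AS2.HermiteLocal
import Pool.Agent.Helper31.AR.Residue

/-!
# AS2-18 Hermite: the pairs of the box which are not bad at any point of `F`

Let `M = (∏_a (X - C a)) ^ 2`, monic of degree `2 q ≤ 4 n + 1`. For `(r, s)` counted by `hermite_local`, `g = z X ^ (4 n + 1 - 2 q) + g₀` with `z ≠ 0`, `g₀ ∈ PN F (4 n + 1 - 2 q)`, and `g' ∈ PN F (6 n + 2 - 2 q)`, the pair `(r + M g, s + M g')` is in the box, `natDegree = 4 n + 1`
(`deg r < 2 q ≤ 4 n + 1`), and it is not bad at any `a` (`Bad (X - C a) A B` depends only on `A`, `B` modulo `(X - C a) ^ 2`, or use `bad_linear_iff`). Different data give different pairs (division with remainder by `M`). So the number is at least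
`(q - 1) q ^ (4 n + 1 - 2 q) q ^ (6 n + 2 - 2 q) (q ^ 4 - q ^ 2) ^ q = (1 - 1 / q) (1 - 1 / q ^ 2) ^ q q ^ (10 n + 4)`.
-/

set_option autoImplicit false

open Polynomial

namespace Pool.Agent.Helper97.AS2

open Pool.Agent.Helper31.AR Pool.Agent.Helper97.AS

variable {F : Type} [Field F] [Fintype F]

private theorem he_bad {F : Type} [Field F] {v A A' B B' : F[X]} (hA : v ^ 2 ∣ A - A')
    (hB : v ^ 2 ∣ B - B') (h : Bad v A B) : Bad v A' B' := by
  obtain ⟨h1, h2⟩ := h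
  have hv : v ∣ A - A' := (dvd_pow_self v two_ne_zero).trans hA
  refine ⟨?_, ?_⟩
  · have e : dis A' B' = dis A B - (4 * ((A - A') * (A ^ 2 + A * A' + A' ^ 2)) +
        27 * ((B - B') * (B + B'))) := by
      unfold dis
      ring
    rw [e]
    exact dvd_sub h1 (dvd_add ((hA.mul_right _).mul_left _) ((hB.mul_right _).mul_left _))
  · intro h3
    have h4 : v ∣ A := by
      have e : A = A' + (A - A') := by ring
      rw [e]
      exact dvd_add h3 hv
    have e : B' = B - (B - B') := by ring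
    rw [e]
    exact dvd_sub (h2 h4) hB

private theorem he_bad_iff {F : Type} [Field F] {v A A' B B' : F[X]} (hA : v ^ 2 ∣ A - A')
    (hB : v ^ 2 ∣ B - B') : Bad v A B ↔ Bad v A' B' := by
  refine ⟨he_bad hA hB, he_bad ?_ ?_⟩
  · rw [← neg_sub]
    exact hA.neg_right
  · rw [← neg_sub]
    exact hB.neg_right

open Classical in
private theorem he_top (N : ℕ) (g : F[X] → ℕ) :
    ∑ z ∈ (Finset.univ : Finset F).erase 0, ∑ f ∈ PN F N, g (C z * X ^ N + f) ≤
      ∑ A ∈ (PN F (N + 1)).filter (fun A => A.natDegree = N), g A := by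
  rw [← Finset.sum_product']
  have hdeg : ∀ z : F, z ≠ 0 → ∀ f ∈ PN F N, f.degree < (C z * X ^ N : F[X]).degree := by
    intro z hz f hf
    rw [degree_C_mul_X_pow N hz]
    exact (mem_PN N f).1 hf
  have hinj : Set.InjOn (fun p : F × F[X] => C p.1 * X ^ N + p.2)
      (((Finset.univ : Finset F).erase 0 ×ˢ PN F N : Finset (F × F[X])) : Set (F × F[X])) := by
    rintro ⟨z, f⟩ h1 ⟨z', f'⟩ h2 h3
    rw [Finset.mem_coe, Finset.mem_product] at h1 h2
    have h4 : z = z' := by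
      have h5 := congrArg (fun P : F[X] => P.coeff N) h3
      simp only [coeff_add, coeff_C_mul, coeff_X_pow_self, mul_one] at h5
      rw [coeff_eq_zero_of_degree_lt ((mem_PN N f).1 h1.2),
        coeff_eq_zero_of_degree_lt ((mem_PN N f').1 h2.2), add_zero, add_zero] at h5
      exact h5
    subst h4
    have h6 : f = f' := add_left_cancel h3
    rw [h6]
  have h1 : ∑ p ∈ (Finset.univ : Finset F).erase 0 ×ˢ PN F N, g (C p.1 * X ^ N + p.2) =
      ∑ A ∈ ((Finset.univ : Finset F).erase 0 ×ˢ PN F N).image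
        (fun p : F × F[X] => C p.1 * X ^ N + p.2), g A :=
    (Finset.sum_image hinj).symm
  rw [h1]
  apply Finset.sum_le_sum_of_subset
  intro A hA
  rw [Finset.mem_image] at hA
  obtain ⟨⟨z, f⟩, hp, rfl⟩ := hA
  rw [Finset.mem_product, Finset.mem_erase] at hp
  have hz : z ≠ 0 := hp.1.1
  have h2 : (C z * X ^ N + f : F[X]).degree = (N : WithBot ℕ) := by
    rw [degree_add_eq_left_of_degree_lt (hdeg z hz f hp.2), degree_C_mul_X_pow N hz]
  rw [Finset.mem_filter, mem_PN]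
  refine ⟨?_, natDegree_eq_of_degree_eq_some h2⟩
  change (C z * X ^ N + f : F[X]).degree < _
  rw [h2]
  exact_mod_cast Nat.lt_succ_self N

open Classical in
theorem hermite_count (h2 : (2 : F) ≠ 0) (h3 : (3 : F) ≠ 0) {n : ℕ}
    (hn : 2 * Fintype.card F ≤ 4 * n + 1) :
    (1 - 1 / (Fintype.card F : ℝ)) * (1 - 1 / (Fintype.card F : ℝ) ^ 2) ^ Fintype.card F *
        (Fintype.card F : ℝ) ^ (10 * n + 4) ≤
      (((box F n).filter (fun p => p.1.natDegree = 4 * n + 1 ∧
        ∀ a : F, ¬ Bad (X - C a) p.1 p.2)).card : ℝ) := by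
  set q := Fintype.card F with hq
  obtain ⟨M, hM⟩ : ∃ M : F[X], M = (∏ a : F, (X - C a)) ^ 2 := ⟨_, rfl⟩
  have hMm : M.Monic := by
    rw [hM]
    exact (monic_prod_of_monic _ _ fun a _ => monic_X_sub_C a).pow 2
  have hMd : M.natDegree = 2 * q := by
    rw [hM, (monic_prod_of_monic _ _ fun a _ => monic_X_sub_C a).natDegree_pow,
      natDegree_prod_of_monic _ _ fun a _ => monic_X_sub_C a]
    simp [hq]
  have hMdvd : ∀ a : F, (X - C a) ^ 2 ∣ M := by
    intro a
    have h1 : (X - C a : F[X]) ∣ ∏ b : F, (X - C b) :=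
      Finset.dvd_prod_of_mem (fun b : F => (X - C b : F[X])) (Finset.mem_univ a)
    rw [hM]
    exact pow_dvd_pow_of_dvd h1 2
  set I : F[X] → F[X] → ℕ := fun A B => if ∀ a : F, ¬ Bad (X - C a) A B then 1 else 0 with hI
  have hIc : ∀ A A' B B' : F[X], M ∣ A - A' → M ∣ B - B' → I A B = I A' B' := by
    intro A A' B B' hA hB
    have : (∀ a : F, ¬ Bad (X - C a) A B) ↔ ∀ a : F, ¬ Bad (X - C a) A' B' :=
      forall_congr' fun a => not_congr
        (he_bad_iff ((hMdvd a).trans hA) ((hMdvd a).trans hB))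
    simp only [hI, this]
  have hloc := hermite_local h2 h3
  rw [← hq] at hloc
  have hloc' : ((PN F (2 * q) ×ˢ PN F (2 * q)).filter
      (fun p => ∀ a : F, ¬ Bad (X - C a) p.1 p.2)).card =
      ∑ r ∈ PN F (2 * q), ∑ s ∈ PN F (2 * q), I r s := by
    rw [Finset.card_filter, Finset.sum_product]
  have hsumB : ∀ A : F[X], ∑ B ∈ PN F (6 * n + 2), I A B =
      q ^ (6 * n + 2 - 2 * q) * ∑ s ∈ PN F (2 * q), I A s := by
    intro A
    have h4 := sum_PN_residue hMm (N := 6 * n + 2) (by rw [hMd]; omega) 0 (fun B => I A B)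
      (fun f g hfg => hIc A A f g (by rw [sub_self]; exact dvd_zero _) hfg)
    simp only [zero_add] at h4
    rw [h4, hMd, smul_eq_mul]
  have hsumA : ∀ z : F, ∑ f ∈ PN F (4 * n + 1), ∑ s ∈ PN F (2 * q), I (C z * X ^ (4 * n + 1) + f) s =
      q ^ (4 * n + 1 - 2 * q) * ∑ r ∈ PN F (2 * q), ∑ s ∈ PN F (2 * q), I r s := by
    intro z
    have h4 := sum_PN_residue hMm (N := 4 * n + 1) (by rw [hMd]; omega) (C z * X ^ (4 * n + 1))
      (fun A => ∑ s ∈ PN F (2 * q), I A s)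
      (fun f g hfg => Finset.sum_congr rfl fun s _ =>
        hIc f g s s hfg (by rw [sub_self]; exact dvd_zero _))
    rw [h4, hMd, smul_eq_mul]
  have hcount : (q - 1) * (q ^ (6 * n + 2 - 2 * q) * (q ^ (4 * n + 1 - 2 * q) *
      ∑ r ∈ PN F (2 * q), ∑ s ∈ PN F (2 * q), I r s)) ≤
      ((box F n).filter (fun p => p.1.natDegree = 4 * n + 1 ∧
        ∀ a : F, ¬ Bad (X - C a) p.1 p.2)).card := by
    have e1 : ((box F n).filter (fun p => p.1.natDegree = 4 * n + 1 ∧
        ∀ a : F, ¬ Bad (X - C a) p.1 p.2)).card =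
        ∑ A ∈ (PN F (4 * n + 1 + 1)).filter (fun A => A.natDegree = 4 * n + 1),
          ∑ B ∈ PN F (6 * n + 2), I A B := by
      unfold box
      rw [Finset.card_filter, Finset.sum_product, Finset.sum_filter]
      refine Finset.sum_congr rfl fun A _ => ?_
      by_cases hA : A.natDegree = 4 * n + 1
      · rw [if_pos hA]
        refine Finset.sum_congr rfl fun B _ => ?_
        simp only [hI, hA, true_and]
      · rw [if_neg hA]
        exact Finset.sum_eq_zero fun B _ => if_neg fun h => hA h.1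
    rw [e1]
    refine le_trans ?_ (he_top (4 * n + 1) fun A => ∑ B ∈ PN F (6 * n + 2), I A B)
    simp only [hsumB]
    have e2 : ∀ z ∈ (Finset.univ : Finset F).erase 0, ∑ f ∈ PN F (4 * n + 1),
        q ^ (6 * n + 2 - 2 * q) * ∑ s ∈ PN F (2 * q), I (C z * X ^ (4 * n + 1) + f) s =
        q ^ (6 * n + 2 - 2 * q) * (q ^ (4 * n + 1 - 2 * q) *
          ∑ r ∈ PN F (2 * q), ∑ s ∈ PN F (2 * q), I r s) := by
      intro z _
      rw [← Finset.mul_sum, hsumA]
    rw [Finset.sum_congr rfl e2, Finset.sum_const, Finset.card_erase_of_mem (Finset.mem_univ _),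
      Finset.card_univ, smul_eq_mul]
  rw [hloc'] at hloc
  have hq1 : 1 < q := Fintype.one_lt_card
  have hq0 : (0 : ℝ) < q := by exact_mod_cast (by omega : 0 < q)
  have hfin : (q - 1) * (q ^ (6 * n + 2 - 2 * q) * (q ^ (4 * n + 1 - 2 * q) *
      (q ^ 4 - q ^ 2) ^ q)) ≤ ((box F n).filter (fun p => p.1.natDegree = 4 * n + 1 ∧
        ∀ a : F, ¬ Bad (X - C a) p.1 p.2)).card := by
    refine le_trans ?_ hcount
    exact Nat.mul_le_mul_left _ (Nat.mul_le_mul_left _ (Nat.mul_le_mul_left _ hloc))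
  have hfin' : ((q : ℝ) - 1) * ((q : ℝ) ^ (6 * n + 2 - 2 * q) * ((q : ℝ) ^ (4 * n + 1 - 2 * q) *
      ((q : ℝ) ^ 4 - (q : ℝ) ^ 2) ^ q)) ≤
      (((box F n).filter (fun p => p.1.natDegree = 4 * n + 1 ∧
        ∀ a : F, ¬ Bad (X - C a) p.1 p.2)).card : ℝ) := by
    have h5 : (q ^ 2 : ℕ) ≤ q ^ 4 := Nat.pow_le_pow_right (by omega) (by norm_num)
    have h6 := (Nat.cast_le (α := ℝ)).2 hfin
    rw [Nat.cast_mul, Nat.cast_mul, Nat.cast_mul, Nat.cast_sub hq1.le, Nat.cast_pow, Nat.cast_pow,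
      Nat.cast_pow, Nat.cast_sub h5, Nat.cast_pow, Nat.cast_pow, Nat.cast_one] at h6
    exact h6
  refine le_trans (le_of_eq ?_) hfin'
  have e3 : (1 - 1 / (q : ℝ)) * q = (q : ℝ) - 1 := by field_simp
  have e4 : ((q : ℝ) ^ 4 - (q : ℝ) ^ 2) ^ q = (1 - 1 / (q : ℝ) ^ 2) ^ q * (q : ℝ) ^ (4 * q) := by
    rw [pow_mul, ← mul_pow]
    congr 1
    field_simp
  have e5 : (q : ℝ) ^ (10 * n + 4) = q * (q : ℝ) ^ (6 * n + 2 - 2 * q) *
      (q : ℝ) ^ (4 * n + 1 - 2 * q) * (q : ℝ) ^ (4 * q) := by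
    rw [← pow_succ', ← pow_add, ← pow_add]
    congr 1
    omega
  rw [e4, e5, ← e3]
  ring

end Pool.Agent.Helper97.AS2
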