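import Pool.Agent.Helper97.AS.IrrCount

/-!
# AS2-09 IrrSum: the sum over the primes of odd degree `≥ 3` (short)

`u_d q ^ (- 2 d) ≤ q ^ (- d) / d ≤ q ^ (- d) / 3` for `d ≥ 3` (`irr_mul_le`). `∑_{d ≥ 3, odd} q ^ (- d) ≤ q ^ (-3) / (1 - q ^ (-2)) ≤ (25 / 24) q ^ (-3)` (`q ≥ 5`). Total `≤ (25 / 72) q ^ (-3) ≤ (2 / 5) q ^ (-3)`.
(A weaker way, without using that `d` is odd: `∑_{d ≥ 3} q ^ (- d) ≤ (5 / 4) q ^ (-3)` gives `5 / 12 > 2 / 5`, so the parity is needed; e.g. prove by induction on `D` the bound with partial sums `(25 / 72) q ^ (-3) - ...`, or bound the sum over odd `d = 2 k + 3` by a geometric series with ratio `q ^ (-2)`.)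
-/

set_option autoImplicit false

open Polynomial

namespace Pool.Agent.Helper97.AS2

open Pool.Agent.Helper31.AR Pool.Agent.Helper97.AS

variable (F : Type) [Field F] [Fintype F]

/-- the numerical part -/
theorem irr_sum_odd_aux {q : ℝ} (hq : 5 ≤ q) (u : ℕ → ℝ)
    (h3 : ∀ d : ℕ, 1 ≤ d → (d : ℝ) * u d ≤ q ^ d) (h0 : ∀ d, 0 ≤ u d) (D : ℕ) :
    ∑ d ∈ (Finset.Icc 3 D).filter (fun d => Odd d), u d / q ^ (2 * d) ≤ 2 / (5 * q ^ 3) := by
  have hq0 : 0 < q := by linarith
  have key : ∀ k : ℕ, ∑ d ∈ (Finset.Icc 3 (2 * k + 2)).filter (fun d => Odd d),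
      u d / q ^ (2 * d) ≤ 25 / (72 * q ^ 3) - 25 / (72 * q ^ (2 * k + 3)) := by
    intro k
    induction k with
    | zero => simp
    | succ k ih =>
      rw [Finset.sum_filter] at ih ⊢
      rw [show 2 * (k + 1) + 2 = (2 * k + 2) + 1 + 1 by ring,
        Finset.sum_Icc_succ_top (by omega), Finset.sum_Icc_succ_top (by omega),
        if_pos (show Odd (2 * k + 2 + 1) from ⟨k + 1, by ring⟩),
        if_neg (show ¬ Odd (2 * k + 2 + 1 + 1) from by
          rw [Nat.not_odd_iff_even]; exact ⟨k + 2, by ring⟩), add_zero]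
      have hD' : (3 : ℝ) ≤ ((2 * k + 2 + 1 : ℕ) : ℝ) := by
        exact_mod_cast (by omega : 3 ≤ 2 * k + 2 + 1)
      have h4 : u (2 * k + 2 + 1) ≤ q ^ (2 * k + 2 + 1) / 3 := by
        rw [le_div_iff₀ (by norm_num)]
        have h5 := h3 (2 * k + 2 + 1) (by omega)
        have h6 := mul_le_mul_of_nonneg_right hD' (h0 (2 * k + 2 + 1))
        linarith
      have hp : 0 < q ^ (2 * k + 2 + 1) := by positivity
      have t3 : u (2 * k + 2 + 1) / q ^ (2 * (2 * k + 2 + 1)) ≤ 1 / 3 / q ^ (2 * k + 3) := by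
        refine (div_le_div_of_nonneg_right h4 (by positivity)).trans (le_of_eq ?_)
        rw [show q ^ (2 * (2 * k + 2 + 1)) = q ^ (2 * k + 3) * q ^ (2 * k + 3) by ring,
          show 2 * k + 2 + 1 = 2 * k + 3 by ring]
        field_simp
      have t4 : 1 / 3 / q ^ (2 * k + 3) + 25 / (72 * q ^ (2 * (k + 1) + 3)) ≤
          25 / (72 * q ^ (2 * k + 3)) := by
        have e4 : 25 / (72 * q ^ (2 * k + 3)) -
            (1 / 3 / q ^ (2 * k + 3) + 25 / (72 * q ^ (2 * (k + 1) + 3))) =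
            (q ^ 2 - 25) / (72 * q ^ (2 * (k + 1) + 3)) := by
          rw [show q ^ (2 * (k + 1) + 3) = q ^ (2 * k + 3) * q ^ 2 by ring]
          field_simp
          ring
        have h8 : 0 ≤ (q ^ 2 - 25) / (72 * q ^ (2 * (k + 1) + 3)) :=
          div_nonneg (by nlinarith) (by positivity)
        linarith
      linarith
  have hmono : ∑ d ∈ (Finset.Icc 3 D).filter (fun d => Odd d), u d / q ^ (2 * d) ≤
      ∑ d ∈ (Finset.Icc 3 (2 * D + 2)).filter (fun d => Odd d), u d / q ^ (2 * d) := by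
    refine Finset.sum_le_sum_of_subset_of_nonneg ?_ ?_
    · refine Finset.filter_subset_filter _ ?_
      exact Finset.Icc_subset_Icc_right (by omega)
    · intro i _ _
      exact div_nonneg (h0 i) (by positivity)
  have h5 : 0 ≤ 25 / (72 * q ^ (2 * D + 3)) := by positivity
  have h6 : 25 / (72 * q ^ 3) ≤ 2 / (5 * q ^ 3) := by
    rw [div_le_div_iff₀ (by positivity) (by positivity)]
    nlinarith [pow_pos hq0 3]
  linarith [key D]

open Classical in
theorem irr_sum_odd_le (hq : 5 ≤ Fintype.card F) (D : ℕ) :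
    ∑ d ∈ (Finset.Icc 3 D).filter (fun d => Odd d),
      (((MN F d).filter (fun v => Irreducible v)).card : ℝ) / (Fintype.card F : ℝ) ^ (2 * d) ≤
      2 / (5 * (Fintype.card F : ℝ) ^ 3) := by
  refine irr_sum_odd_aux (q := (Fintype.card F : ℝ)) (by exact_mod_cast hq)
    (fun d => (((MN F d).filter (fun v => Irreducible v)).card : ℝ)) ?_
    (fun d => Nat.cast_nonneg _) D
  intro d hd
  exact_mod_cast irr_mul_le F hd

end Pool.Agent.Helper97.AS2
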