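import Pool.Agent.Helper97.AS2.LocalCount
import Pool.Agent.Helper97.AS2.IrrSum
import Pool.Agent.Helper97.AS2.Hermite
import Pool.Agent.Helper97.AS2.CondParity
import Pool.Agent.Helper97.AS.LargeCount
import Pool.Agent.Helper97.AS.NotMin

/-!
# AS2-14 GoodCount: the number of the good pairs

`N = q ^ (10 n + 4)`, `q ≥ 5`. Let `H` be the set of `hermite_count` (`2 q ≤ 4 n + 1` for large `n`). If a pair `(A, B) ∈ H` is not good, then by `cond_parity` either `¬ MinF A B` (`card_bad_le`: at most `N / q ^ 8`) or `Bad v A B` for a monic irreducible `v` of odd degree `d`;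
`d = 1` is impossible (`v = X - C a`); `3 ≤ d ≤ 2 n`: counted by `bad_count`; `d > 2 n`: `v ^ 2 ∣ dis A B`, counted by `large_count` with `δ = 1 / (100 q ^ 2)`. So
`card good ≥ (1 - 1 / q) (1 - 1 / q ^ 2) ^ q N - (1 - 1 / q) (2 / (5 q ^ 3)) N - N / q ^ 8 - N / (100 q ^ 2)` (`irr_sum_odd_le`; `(q - 1) q ^ (10 n + 3) = (1 - 1 / q) N`).
`(1 - x) ^ k ≥ 1 - k x + (k (k - 1) / 2) x ^ 2 - (k (k - 1) (k - 2) / 6) x ^ 3` for `0 ≤ x ≤ 1` (induction on `k`). With `x = 1 / q ^ 2`, `k = q`: `(1 - 1 / q ^ 2) ^ q ≥ 1 - 1 / q + 1 / (2 q ^ 2) - 2 / (3 q ^ 3)`. Hence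
`(1 - 1 / q) (1 - 1 / q ^ 2) ^ q ≥ (1 - 1 / q) ^ 2 + (4 / 5) (1 / 2 - 2 / 15) / q ^ 2 ≥ (1 - 1 / q) ^ 2 + 0.29 / q ^ 2`, and `0.29 - 0.08 - 0.001 - 0.01 ≥ 1 / 10`.
-/

set_option autoImplicit false

open Polynomial

namespace Pool.Agent.Helper97.AS2

open Pool.Agent.Helper31.AR Pool.Agent.Helper97.AS

private theorem gc_five (F : Type) [Field F] [Fintype F] (h2 : (2 : F) ≠ 0) (h3 : (3 : F) ≠ 0) :
    5 ≤ Fintype.card F := by
  have h1 : 1 < Fintype.card F := Fintype.one_lt_card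
  have h0 : ((Fintype.card F : ℕ) : F) = 0 := Nat.cast_card_eq_zero F
  by_contra hcon
  have h4 : Fintype.card F = 2 ∨ Fintype.card F = 3 ∨ Fintype.card F = 4 := by omega
  rcases h4 with h | h | h
  · rw [h] at h0
    exact h2 (by exact_mod_cast h0)
  · rw [h] at h0
    exact h3 (by exact_mod_cast h0)
  · rw [h] at h0
    have h5 : (2 : F) * 2 = 0 := by
      have h6 : (4 : F) = 0 := by exact_mod_cast h0
      rw [← h6]
      norm_num
    rcases mul_eq_zero.1 h5 with h6 | h6 <;> exact h2 h6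

private theorem gc_choose (k : ℕ) : 0 ≤ (k : ℝ) * (k - 1) * (k - 2) := by
  rcases k with _ | _ | k
  · simp
  · simp
  · have h : (0 : ℝ) ≤ k := Nat.cast_nonneg k
    push_cast
    have e : ((k : ℝ) + 1 + 1) * ((k : ℝ) + 1 + 1 - 1) * ((k : ℝ) + 1 + 1 - 2) =
        ((k : ℝ) + 2) * ((k : ℝ) + 1) * k := by ring
    rw [e]
    positivity

theorem bernoulli_three (x : ℝ) (h0 : 0 ≤ x) (h1 : x ≤ 1) (k : ℕ) :
    1 - k * x + (k * (k - 1) / 2) * x ^ 2 - (k * (k - 1) * (k - 2) / 6) * x ^ 3 ≤ (1 - x) ^ k := by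
  induction k with
  | zero => simp
  | succ k ih =>
    have h2 := mul_le_mul_of_nonneg_right ih (sub_nonneg.2 h1)
    rw [pow_succ]
    refine le_trans ?_ h2
    have h3 : 0 ≤ (k : ℝ) * (k - 1) * (k - 2) / 6 * x ^ 4 := by
      have := gc_choose k
      positivity
    push_cast
    nlinarith [h3]

section

variable {F : Type} [Field F] [Fintype F]

open Classical in
private theorem gc_subset (h2 : (2 : F) ≠ 0) (h3 : (3 : F) ≠ 0) (n : ℕ) :
    (box F n).filter (fun p => p.1.natDegree = 4 * n + 1 ∧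
        ∀ a : F, ¬ Bad (X - C a) p.1 p.2) ⊆ AS2.good F n ∪
    (((box F n).filter (fun p => ¬ (MinF p.1 p.2 ∧ dis p.1 p.2 ≠ 0 ∧ ¬ Const p.1 p.2))) ∪
    ((((Finset.Icc 3 (2 * n)).filter (fun d => Odd d)).biUnion
      fun d => ((MN F d).filter fun v => Irreducible v).biUnion
      fun v => (box F n).filter (fun p => p.1.natDegree = 4 * n + 1 ∧ Bad v p.1 p.2)) ∪
    (box F n).filter (fun p => ∃ v : F[X], Irreducible v ∧ 2 * n < v.natDegree ∧
        v ^ 2 ∣ dis p.1 p.2))) := by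
  intro p hp
  rw [Finset.mem_filter] at hp
  obtain ⟨hb, hA, ha⟩ := hp
  have hb' := hb
  unfold box at hb'
  rw [Finset.mem_product, mem_PN_iff_natDegree (N := 6 * n + 2) (by omega)] at hb'
  by_cases hm : MinF p.1 p.2 ∧ dis p.1 p.2 ≠ 0 ∧ ¬ Const p.1 p.2
  · by_cases hbad : ∀ v : F[X], v.Monic → Irreducible v → Odd v.natDegree → ¬ Bad v p.1 p.2
    · apply Finset.mem_union_left
      unfold good
      rw [Finset.mem_filter]
      exact ⟨hb, cond_parity h2 h3 hA (by omega) hm.1 hbad⟩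
    · push Not at hbad
      obtain ⟨v, hvm, hvi, hvo, hvb⟩ := hbad
      apply Finset.mem_union_right
      apply Finset.mem_union_right
      have hv1 : v.natDegree ≠ 1 := by
        intro h
        have h4 := hvm.eq_X_add_C h
        apply ha (-v.coeff 0)
        have h5 : X - C (-v.coeff 0) = v := by
          rw [C_neg, sub_neg_eq_add]
          exact h4.symm
        rw [h5]
        exact hvb
      have hv3 : 3 ≤ v.natDegree := by
        obtain ⟨j, hj⟩ := hvo
        omega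
      by_cases hl : v.natDegree ≤ 2 * n
      · apply Finset.mem_union_left
        rw [Finset.mem_biUnion]
        refine ⟨v.natDegree, ?_, ?_⟩
        · rw [Finset.mem_filter, Finset.mem_Icc]
          exact ⟨⟨hv3, hl⟩, hvo⟩
        · rw [Finset.mem_biUnion]
          refine ⟨v, ?_, ?_⟩
          · rw [Finset.mem_filter, mem_MN]
            exact ⟨⟨hvm, rfl⟩, hvi⟩
          · rw [Finset.mem_filter]
            exact ⟨hb, hA, hvb⟩
      · apply Finset.mem_union_right
        rw [Finset.mem_filter]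
        exact ⟨hb, v, hvi, by omega, hvb.1⟩
  · apply Finset.mem_union_right
    apply Finset.mem_union_left
    rw [Finset.mem_filter]
    exact ⟨hb, hm⟩

open Classical in
private theorem gc_small (h2 : (2 : F) ≠ 0) (h3 : (3 : F) ≠ 0) (n : ℕ) :
    (((((Finset.Icc 3 (2 * n)).filter (fun d => Odd d)).biUnion
      fun d => ((MN F d).filter fun v => Irreducible v).biUnion
      fun v => (box F n).filter (fun p => p.1.natDegree = 4 * n + 1 ∧ Bad v p.1 p.2)).card : ℕ)
        : ℝ) ≤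
      (2 / (5 * (Fintype.card F : ℝ) ^ 3)) *
        (((Fintype.card F : ℝ) - 1) * (Fintype.card F : ℝ) ^ (10 * n + 3)) := by
  have hq5 := gc_five F h2 h3
  set q : ℝ := (Fintype.card F : ℝ) with hq
  have hq0 : 0 < q := by
    rw [hq]
    exact_mod_cast (by omega : 0 < Fintype.card F)
  have hq1 : (1 : ℝ) ≤ q := by
    rw [hq]
    exact_mod_cast (by omega : 1 ≤ Fintype.card F)
  have h1 : ∀ d ∈ (Finset.Icc 3 (2 * n)).filter (fun d => Odd d),
      ((((MN F d).filter fun v => Irreducible v).biUnion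
      fun v => (box F n).filter (fun p => p.1.natDegree = 4 * n + 1 ∧
        Bad v p.1 p.2)).card : ℝ) ≤
      (((MN F d).filter fun v => Irreducible v).card : ℝ) / q ^ (2 * d) *
        ((q - 1) * q ^ (10 * n + 3)) := by
    intro d hd
    rw [Finset.mem_filter, Finset.mem_Icc] at hd
    have h4 : ∀ v ∈ (MN F d).filter (fun v => Irreducible v),
        (((box F n).filter (fun p => p.1.natDegree = 4 * n + 1 ∧
          Bad v p.1 p.2)).card : ℝ) ≤
        1 / q ^ (2 * d) * ((q - 1) * q ^ (10 * n + 3)) := by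
      intro v hv
      rw [Finset.mem_filter, mem_MN] at hv
      have h5 := bad_count h2 h3 (n := n) hv.1.1 hv.2 (by rw [hv.1.2]; exact hd.1.2)
      rw [hv.1.2] at h5
      have h7 : ((((box F n).filter (fun p => p.1.natDegree = 4 * n + 1 ∧
          Bad v p.1 p.2)).card * Fintype.card F ^ (2 * d) : ℕ) : ℝ) ≤
          (((Fintype.card F - 1) * Fintype.card F ^ (10 * n + 3) : ℕ) : ℝ) := by
        exact_mod_cast h5
      push_cast [Nat.cast_sub (by omega : 1 ≤ Fintype.card F)] at h7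
      rw [← hq] at h7
      rw [div_mul_eq_mul_div, one_mul, le_div_iff₀ (by positivity)]
      exact h7
    calc ((((MN F d).filter fun v => Irreducible v).biUnion
          fun v => (box F n).filter (fun p => p.1.natDegree = 4 * n + 1 ∧
          Bad v p.1 p.2)).card : ℝ)
        ≤ ((∑ v ∈ (MN F d).filter (fun v => Irreducible v),
            ((box F n).filter (fun p => p.1.natDegree = 4 * n + 1 ∧
              Bad v p.1 p.2)).card : ℕ) : ℝ) := by
          exact_mod_cast Finset.card_biUnion_le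
      _ = ∑ v ∈ (MN F d).filter (fun v => Irreducible v),
            (((box F n).filter (fun p => p.1.natDegree = 4 * n + 1 ∧
              Bad v p.1 p.2)).card : ℝ) := by push_cast; rfl
      _ ≤ ∑ v ∈ (MN F d).filter (fun v => Irreducible v),
            1 / q ^ (2 * d) * ((q - 1) * q ^ (10 * n + 3)) :=
          Finset.sum_le_sum h4
      _ = _ := by
          rw [Finset.sum_const, nsmul_eq_mul]
          ring
  calc (((((Finset.Icc 3 (2 * n)).filter (fun d => Odd d)).biUnion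
      fun d => ((MN F d).filter fun v => Irreducible v).biUnion
        fun v => (box F n).filter (fun p => p.1.natDegree = 4 * n + 1 ∧
        Bad v p.1 p.2)).card : ℕ) : ℝ)
      ≤ ((∑ d ∈ (Finset.Icc 3 (2 * n)).filter (fun d => Odd d),
          (((MN F d).filter fun v => Irreducible v).biUnion
          fun v => (box F n).filter (fun p => p.1.natDegree = 4 * n + 1 ∧
            Bad v p.1 p.2)).card : ℕ) : ℝ) := by
        exact_mod_cast Finset.card_biUnion_le
    _ = ∑ d ∈ (Finset.Icc 3 (2 * n)).filter (fun d => Odd d),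
          ((((MN F d).filter fun v => Irreducible v).biUnion
          fun v => (box F n).filter (fun p => p.1.natDegree = 4 * n + 1 ∧
            Bad v p.1 p.2)).card : ℝ) := by push_cast; rfl
    _ ≤ ∑ d ∈ (Finset.Icc 3 (2 * n)).filter (fun d => Odd d),
          (((MN F d).filter fun v => Irreducible v).card : ℝ) / q ^ (2 * d) *
          ((q - 1) * q ^ (10 * n + 3)) := Finset.sum_le_sum h1
    _ = (∑ d ∈ (Finset.Icc 3 (2 * n)).filter (fun d => Odd d),
          (((MN F d).filter fun v => Irreducible v).card : ℝ) / q ^ (2 * d)) *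
            ((q - 1) * q ^ (10 * n + 3)) := by
        rw [Finset.sum_mul]
    _ ≤ _ := by
        apply mul_le_mul_of_nonneg_right (irr_sum_odd_le F hq5 (2 * n))
        have : 0 ≤ q - 1 := by linarith
        positivity

private theorem gc_fin (q : ℝ) (hq : 5 ≤ q) :
    (1 - 1 / q) ^ 2 + 1 / (10 * q ^ 2) ≤
      (1 - 1 / q) * (1 - q * (1 / q ^ 2) + (q * (q - 1) / 2) * (1 / q ^ 2) ^ 2 -
        (q * (q - 1) * (q - 2) / 6) * (1 / q ^ 2) ^ 3) -
      (2 / (5 * q ^ 3)) * (1 - 1 / q) - 1 / q ^ 8 - 1 / (100 * q ^ 2) := by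
  have hq0 : 0 < q := by linarith
  have ha0 : 0 < 1 / q := by positivity
  have ha : 1 / q ≤ 1 / 5 := one_div_le_one_div_of_le (by norm_num) hq
  have e1 : q * (1 / q ^ 2) = 1 / q := by field_simp
  have e2 : (q * (q - 1) / 2) * (1 / q ^ 2) ^ 2 = (1 / q) ^ 2 * ((1 - 1 / q) / 2) := by
    field_simp
  have e3 : (q * (q - 1) * (q - 2) / 6) * (1 / q ^ 2) ^ 3 =
      (1 / q) ^ 2 * ((1 / q) * (1 - 1 / q) * (1 - 2 * (1 / q)) / 6) := by
    field_simp
  have e4 : 2 / (5 * q ^ 3) = (1 / q) ^ 2 * (2 / 5 * (1 / q)) := by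
    field_simp
  have e5 : 1 / q ^ 8 = (1 / q) ^ 2 * (1 / q) ^ 6 := by
    field_simp
  have e6 : 1 / (100 * q ^ 2) = (1 / q) ^ 2 * (1 / 100) := by
    field_simp
  have e7 : 1 / (10 * q ^ 2) = (1 / q) ^ 2 * (1 / 10) := by
    field_simp
  rw [e1, e2, e3, e4, e5, e6, e7]
  set a := 1 / q
  have h6 : a ^ 6 ≤ 1 / 100 := by
    calc a ^ 6 ≤ (1 / 5) ^ 6 := pow_le_pow_left₀ ha0.le ha 6
      _ ≤ 1 / 100 := by norm_num
  have key : 0 ≤ (1 - a) * ((1 - a) / 2 - a * (1 - a) * (1 - 2 * a) / 6 - 2 / 5 * a) -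
      a ^ 6 - 1 / 100 - 1 / 10 := by
    have k1 : a * (1 - a) * (1 - 2 * a) / 6 ≤ 1 / 30 := by
      have : a * (1 - a) * (1 - 2 * a) ≤ 1 / 5 := by
        have h7 : (1 - a) * (1 - 2 * a) ≤ 1 := by nlinarith
        nlinarith
      linarith
    have k2 : 7 / 25 ≤ (1 - a) / 2 - a * (1 - a) * (1 - 2 * a) / 6 - 2 / 5 * a := by
      linarith
    have k3 : (4 : ℝ) / 5 ≤ 1 - a := by linarith
    have k4 : (4 : ℝ) / 5 * (7 / 25) ≤
        (1 - a) * ((1 - a) / 2 - a * (1 - a) * (1 - 2 * a) / 6 - 2 / 5 * a) :=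
      mul_le_mul k3 k2 (by norm_num) (by linarith)
    linarith
  nlinarith [mul_nonneg (sq_nonneg a) key]

end

theorem good_count (F : Type) [Field F] [Fintype F] (h2 : (2 : F) ≠ 0) (h3 : (3 : F) ≠ 0) :
    ∃ n₀ : ℕ, ∀ n : ℕ, n₀ ≤ n →
      ((1 - 1 / (Fintype.card F : ℝ)) ^ 2 + 1 / (10 * (Fintype.card F : ℝ) ^ 2)) *
          (Fintype.card F : ℝ) ^ (10 * n + 4) ≤
        ((AS2.good F n).card : ℝ) := by
  classical
  have hq5 := gc_five F h2 h3
  set q : ℝ := (Fintype.card F : ℝ) with hq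
  have hq5' : (5 : ℝ) ≤ q := by
    rw [hq]
    exact_mod_cast hq5
  have hq0 : 0 < q := by linarith
  obtain ⟨n₀, hn₀⟩ := large_count F h2 h3 (1 / (100 * q ^ 2)) (by positivity)
  refine ⟨n₀ + 2 + Fintype.card F, fun n hn => ?_⟩
  have hl := hn₀ n (by omega)
  rw [← hq] at hl
  have hs := gc_small h2 h3 n (F := F)
  rw [← hq] at hs
  have ht := hermite_count h2 h3 (F := F) (n := n) (by omega)
  rw [← hq] at ht
  have hb := card_bad_le h2 h3 (F := F) (n := n) (by omega)
  rw [← hq] at hb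
  have h1 := Finset.card_le_card (gc_subset h2 h3 n (F := F))
  have h4 := h1.trans ((Finset.card_union_le _ _).trans
      (Nat.add_le_add_left ((Finset.card_union_le _ _).trans
        (Nat.add_le_add_left (Finset.card_union_le _ _) _)) _))
  have h5 : (((box F n).filter (fun p => p.1.natDegree = 4 * n + 1 ∧
        ∀ a : F, ¬ Bad (X - C a) p.1 p.2)).card : ℝ) ≤ ((AS2.good F n).card : ℝ) +
      ((((box F n).filter (fun p => ¬ (MinF p.1 p.2 ∧ dis p.1 p.2 ≠ 0 ∧
          ¬ Const p.1 p.2))).card : ℝ) +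
      (((((Finset.Icc 3 (2 * n)).filter (fun d => Odd d)).biUnion
      fun d => ((MN F d).filter fun v => Irreducible v).biUnion
      fun v => (box F n).filter (fun p => p.1.natDegree = 4 * n + 1 ∧ Bad v p.1 p.2)).card : ℝ) +
      (((box F n).filter (fun p => ∃ v : F[X], Irreducible v ∧ 2 * n < v.natDegree ∧
        v ^ 2 ∣ dis p.1 p.2)).card : ℝ))) := by
    exact_mod_cast h4
  set Q : ℝ := q ^ (10 * n + 4) with hQ
  have hQ0 : 0 < Q := by positivity
  have e4 : (q - 1) * q ^ (10 * n + 3) = (1 - 1 / q) * Q := by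
    have e5 : Q = q * q ^ (10 * n + 3) := by
      rw [hQ, ← pow_succ']
    rw [e5]
    field_simp
  rw [e4] at hs
  have hx : 1 / q ^ 2 ≤ 1 := by
    rw [div_le_one (by positivity)]
    nlinarith
  have hbern := bernoulli_three (1 / q ^ 2) (by positivity) hx (Fintype.card F)
  rw [← hq] at hbern
  have ha1 : 0 ≤ 1 - 1 / q := by
    have : 1 / q ≤ 1 := by
      rw [div_le_one hq0]
      linarith
    linarith
  have hfin := gc_fin q hq5'
  have h6 := mul_le_mul_of_nonneg_left hbern ha1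
  have h7 : (1 - 1 / q) ^ 2 + 1 / (10 * q ^ 2) ≤
      (1 - 1 / q) * (1 - 1 / q ^ 2) ^ Fintype.card F -
      (2 / (5 * q ^ 3)) * (1 - 1 / q) - 1 / q ^ 8 - 1 / (100 * q ^ 2) := by linarith
  have h8 := mul_le_mul_of_nonneg_right h7 hQ0.le
  have h9 : ((1 - 1 / q) * (1 - 1 / q ^ 2) ^ Fintype.card F -
      (2 / (5 * q ^ 3)) * (1 - 1 / q) - 1 / q ^ 8 - 1 / (100 * q ^ 2)) * Q =
      (1 - 1 / q) * (1 - 1 / q ^ 2) ^ Fintype.card F * Q -
      (2 / (5 * q ^ 3)) * ((1 - 1 / q) * Q) - Q / q ^ 8 - 1 / (100 * q ^ 2) * Q := by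
    ring
  rw [h9] at h8
  linarith

end Pool.Agent.Helper97.AS2
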