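import Pool.Agent.Helper97.AS.Defs

/-!
# Project AS, version 2 (MP_8ac872_ag): definitions (no sorry)

`box`, `admS`, `dis`, `MinF`, `fr` are those of `AS/Defs.lean`; `Min`, `IsFrob` those of helper31.

* `condDeg A B`: the degree of the finite part of the conductor of a minimal equation `y ^ 2 = x ^ 3 + A x + B` (characteristic `≥ 5`): the sum over the
  monic irreducible divisors `v` of `dis A B` of `deg v` if `v ∤ A` (multiplicative reduction) and `2 deg v` if `v ∣ A` (additive reduction).
* `IsFrobS n A B Q`: `IsFrob (n + 1) A B Q`, and if the equation is minimal at all places then all roots of `Q` have absolute value `q` and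
  `deg Q = (condDeg A B + 2) - 4` (the reduction at infinity is additive: `deg A ≤ 4 n + 1 < 4 (n + 1)`, `deg B ≤ 6 n + 1 < 6 (n + 1)`).
* `good F n`: the pairs of `box F n` with minimal equation, `dis A B ≠ 0` and `condDeg A B` odd.
* `Bad v A B`: `v ^ 2 ∣ dis A B` and not (`v ∣ A` and `v ^ 2 ∤ B`) (i.e. the fibre is not of type `I_0`, `I_1`, `II`).
-/

set_option autoImplicit false

open Polynomial

namespace Pool.Agent.Helper97.AS2

open Pool.Agent.Helper31.AR Pool.Agent.Helper97.AS

section

/-- Neither of type `I_0`, `I_1` nor `II` at `v`. -/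
def Bad {F : Type} [Field F] (v A B : F[X]) : Prop := v ^ 2 ∣ dis A B ∧ (v ∣ A → v ^ 2 ∣ B)

variable {F : Type} [Field F] [Fintype F]

open Classical in
/-- The degree of the finite part of the conductor. -/
noncomputable def condDeg (A B : F[X]) : ℕ :=
  ∑ v ∈ (dv (dis A B)).filter (fun v => Irreducible v), (if v ∣ A then 2 else 1) * v.natDegree

variable (F) in
open Classical in
/-- The pairs with minimal equation, nonzero discriminant and odd degree of the conductor. -/
noncomputable def good (n : ℕ) : Finset (F[X] × F[X]) :=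
  (box F n).filter (fun p => Min (n + 1) p.1 p.2 ∧ dis p.1 p.2 ≠ 0 ∧ Odd (condDeg p.1 p.2))

/-- The Frobenius polynomials of the pairs of `box F n`. -/
structure IsFrobS (n : ℕ) (A B : F[X]) (Q : ℤ[X]) : Prop extends IsFrob (n + 1) A B Q where
  natDegree_eq : Min (n + 1) A B → dis A B ≠ 0 → Q.natDegree + 4 = condDeg A B + 2
  norm_eq : Min (n + 1) A B → dis A B ≠ 0 → ∀ b : ℂ, aeval b Q = 0 → ‖b‖ = Fintype.card F

end

end Pool.Agent.Helper97.AS2
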