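import Pool.Agent.Helper97.AS2.OddOrd
import Pool.Agent.Helper97.AS.OddOrd
import Pool.Agent.Helper97.AS.GoodSum

/-!
# AS2-05 GoodSum: the sum over the good pairs

As `AS/GoodSum.lean` (copy), with the new `good`.
* `twist_mem_good`: `dis (C (c ^ 2) A) (C (c ^ 3) B) = C (c ^ 6) dis A B`, so `dv` of both is the same finset (`mem_dv`: monic divisors; a nonzero constant is a unit) and `v ∣ C (c ^ 2) * A` iff `v ∣ A`: `condDeg` is the same. `Min` only depends on the pair up to units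
  (`natDegree_C_mul`, divisibility up to units). `C_mul_mem_PN`.
* `good_subset_admS`: if `(A, B) = (C a d ^ 4, C b d ^ 6)` and `Min (n + 1) A B` then `d` is a unit (first part of `Min`), so `A`, `B` have degree `0`, and the second part of `Min` fails (`4 ≤ 4 (n + 1)`, `6 ≤ 6 (n + 1)`).
* `sum_good`: the map `p ↦ (C (c ^ 2) p.1, C (c ^ 3) p.2)`, `c` a nonsquare, is a permutation of `good F n`; `odd_ord_add`, `AS.fr_add`.
-/

set_option autoImplicit false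

open Polynomial

namespace Pool.Agent.Helper97.AS2

open Pool.Agent.Helper31.AR Pool.Agent.Helper97.AS

variable {F : Type} [Field F] [Fintype F]

theorem gs2_mem_good {n : ℕ} {p : F[X] × F[X]} : p ∈ AS2.good F n ↔
    p.1 ∈ PN F (4 * n + 2) ∧ p.2 ∈ PN F (6 * n + 2) ∧ Min (n + 1) p.1 p.2 ∧
      dis p.1 p.2 ≠ 0 ∧ Odd (condDeg p.1 p.2) := by
  classical
  unfold AS2.good box
  rw [Finset.mem_filter, Finset.mem_product]
  tauto

theorem gs2_condDeg {c : F} (hc : c ≠ 0) {A B : F[X]} (h : dis A B ≠ 0) :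
    condDeg (C (c ^ 2) * A) (C (c ^ 3) * B) = condDeg A B := by
  classical
  have hu : IsUnit (C (c ^ 6) : F[X]) := isUnit_C.2 (pow_ne_zero 6 hc).isUnit
  have hu2 : IsUnit (C (c ^ 2) : F[X]) := isUnit_C.2 (pow_ne_zero 2 hc).isUnit
  have h1 : C (c ^ 6) * dis A B ≠ 0 := mul_ne_zero hu.ne_zero h
  have h2 : dv (dis (C (c ^ 2) * A) (C (c ^ 3) * B)) = dv (dis A B) := by
    rw [gs_dis_twist]
    ext g
    rw [mem_dv h1, mem_dv h, hu.dvd_mul_left]
  unfold condDeg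
  rw [h2]
  refine Finset.sum_congr rfl fun v _ => ?_
  by_cases hv : v ∣ A
  · rw [if_pos hv, if_pos ((hu2.dvd_mul_left).2 hv)]
  · rw [if_neg hv, if_neg (fun h' => hv ((hu2.dvd_mul_left).1 h'))]

theorem gs2_min {c : F} (hc : c ≠ 0) {n : ℕ} {A B : F[X]} (h : Min n A B) :
    Min n (C (c ^ 2) * A) (C (c ^ 3) * B) := by
  have hu2 : IsUnit (C (c ^ 2) : F[X]) := isUnit_C.2 (pow_ne_zero 2 hc).isUnit
  have hu3 : IsUnit (C (c ^ 3) : F[X]) := isUnit_C.2 (pow_ne_zero 3 hc).isUnit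
  obtain ⟨h1, h2⟩ := h
  refine ⟨fun d hd => ?_, ?_⟩
  · rw [hu2.dvd_mul_left, hu3.dvd_mul_left]
    exact h1 d hd
  · rw [natDegree_C_mul (pow_ne_zero 2 hc), natDegree_C_mul (pow_ne_zero 3 hc)]
    exact h2

theorem twist_mem_good {c : F} (hc : c ≠ 0) {n : ℕ} {p : F[X] × F[X]} (hp : p ∈ AS2.good F n) :
    (C (c ^ 2) * p.1, C (c ^ 3) * p.2) ∈ AS2.good F n := by
  rw [gs2_mem_good] at hp ⊢
  obtain ⟨h1, h2, h3, h4, h5⟩ := hp
  have hu : IsUnit (C (c ^ 6) : F[X]) := isUnit_C.2 (pow_ne_zero 6 hc).isUnit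
  refine ⟨C_mul_mem_PN _ h1, C_mul_mem_PN _ h2, gs2_min hc h3, ?_, ?_⟩
  · show dis (C (c ^ 2) * p.1) (C (c ^ 3) * p.2) ≠ 0
    rw [gs_dis_twist]
    exact mul_ne_zero hu.ne_zero h4
  · show Odd (condDeg (C (c ^ 2) * p.1) (C (c ^ 3) * p.2))
    rw [gs2_condDeg hc h4]
    exact h5

theorem good_subset_admS (n : ℕ) : AS2.good F n ⊆ admS F n := by
  intro p hp
  rw [gs2_mem_good] at hp
  obtain ⟨h1, h2, h3, h4, _⟩ := hp
  classical
  unfold admS box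
  rw [Finset.mem_filter, Finset.mem_product]
  refine ⟨⟨h1, h2⟩, ?_⟩
  rintro ⟨a, b, d, hA, hB⟩
  obtain ⟨hm1, hm2⟩ := h3
  have h6 : IsUnit d := by
    by_contra hd
    apply hm1 d hd
    rw [hA, hB]
    exact ⟨dvd_mul_left _ _, dvd_mul_left _ _⟩
  have hd0 : d.natDegree = 0 := natDegree_eq_zero_of_isUnit h6
  apply hm2
  have hA0 : p.1.natDegree = 0 := by
    rw [hA]
    refine Nat.le_zero.1 ((natDegree_C_mul_le _ _).trans ?_)
    rw [natDegree_pow, hd0, mul_zero]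
  have hB0 : p.2.natDegree = 0 := by
    rw [hB]
    refine Nat.le_zero.1 ((natDegree_C_mul_le _ _).trans ?_)
    rw [natDegree_pow, hd0, mul_zero]
  omega

theorem gs2_sum_twist {c : F} (hc : c ≠ 0) (n : ℕ) (G : F[X] × F[X] → ℕ) :
    ∑ p ∈ AS2.good F n, G (C (c ^ 2) * p.1, C (c ^ 3) * p.2) = ∑ p ∈ AS2.good F n, G p := by
  have hc' : c⁻¹ ≠ 0 := inv_ne_zero hc
  have e2 : c ^ 2 * c⁻¹ ^ 2 = 1 := by field_simp
  have e3 : c ^ 3 * c⁻¹ ^ 3 = 1 := by field_simp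
  refine Finset.sum_bij' (fun p _ => (C (c ^ 2) * p.1, C (c ^ 3) * p.2))
    (fun p _ => (C (c⁻¹ ^ 2) * p.1, C (c⁻¹ ^ 3) * p.2)) ?_ ?_ ?_ ?_ ?_
  · intro p hp
    exact twist_mem_good hc hp
  · intro p hp
    exact twist_mem_good hc' hp
  · intro p hp
    refine Prod.ext ?_ ?_
    · show C (c⁻¹ ^ 2) * (C (c ^ 2) * p.1) = p.1
      rw [← mul_assoc, ← C_mul, mul_comm, mul_comm (c⁻¹ ^ 2), e2, C_1, mul_one]
    · show C (c⁻¹ ^ 3) * (C (c ^ 3) * p.2) = p.2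
      rw [← mul_assoc, ← C_mul, mul_comm, mul_comm (c⁻¹ ^ 3), e3, C_1, mul_one]
  · intro p hp
    refine Prod.ext ?_ ?_
    · show C (c ^ 2) * (C (c⁻¹ ^ 2) * p.1) = p.1
      rw [← mul_assoc, ← C_mul, e2, C_1, one_mul]
    · show C (c ^ 3) * (C (c⁻¹ ^ 3) * p.2) = p.2
      rw [← mul_assoc, ← C_mul, e3, C_1, one_mul]
  · intro p _
    rfl

theorem sum_good (h2 : (2 : F) ≠ 0) {n : ℕ} (Q : F[X] → F[X] → ℤ[X])
    (hQ : ∀ p ∈ admS F n, AS2.IsFrobS n p.1 p.2 (Q p.1 p.2)) :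
    5 * (AS2.good F n).card ≤ 2 * ∑ p ∈ AS2.good F n, fr (ord F (Q p.1 p.2)) := by
  have hchar : ringChar F ≠ 2 := by
    intro h
    apply h2
    have := ringChar.Nat.cast_ringChar (R := F)
    rw [h] at this
    exact_mod_cast this
  obtain ⟨c, hc⟩ := FiniteField.exists_nonsquare hchar
  have hc0 : c ≠ 0 := by
    rintro rfl
    exact hc ⟨0, by simp⟩
  have h := gs2_sum_twist hc0 n (fun p => fr (ord F (Q p.1 p.2)))
  have h1 : 2 * ∑ p ∈ AS2.good F n, fr (ord F (Q p.1 p.2)) =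
      ∑ p ∈ AS2.good F n, (fr (ord F (Q p.1 p.2)) +
        fr (ord F (Q (C (c ^ 2) * p.1) (C (c ^ 3) * p.2)))) := by
    rw [Finset.sum_add_distrib, h, two_mul]
  rw [h1, mul_comm, ← smul_eq_mul, ← Finset.sum_const]
  refine Finset.sum_le_sum ?_
  intro p hp
  have hp' := twist_mem_good hc0 hp
  have hq := hQ p (good_subset_admS n hp)
  have hq' := hQ _ (good_subset_admS n hp')
  have hg := gs2_mem_good.1 hp
  exact fr_add (odd_ord_add h2 hc hq hq' hg.2.2.1 hg.2.2.2.1 hg.2.2.2.2)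

end Pool.Agent.Helper97.AS2
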