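import Pool.Agent.Helper97.AS2.Defs

/-!
# AS2-17 HermiteLocal: the pairs modulo `(X ^ q - X) ^ 2` which are not bad at any point of `F`

* `Bad (X - C a) A B` iff (`4 x ^ 3 + 27 y ^ 2 = 0`, `12 x ^ 2 x' + 54 y y' = 0`, and (`x ≠ 0` or (`y = 0` and `y' = 0`))) where `x = A(a)`, `x' = A'(a)`, `y = B(a)`, `y' = B'(a)`: `(X - C a) ^ 2 ∣ f` iff `f(a) = 0` and `f'(a) = 0` (Taylor / `f = (X - C a) g`, `f' (a) = g (a)`), and the same for `B`.
* For fixed `a` at most `q ^ 2` of the `q ^ 4` quadruples `(x, x', y, y')` are bad: `x ≠ 0`: then `y ≠ 0` (`4 x ^ 3 ≠ 0`), `x = - 3 c ^ 2`, `y = 2 c ^ 3` with `c = - 3 y / (2 x) ≠ 0` (so `(x, y)` is one of `q - 1` pairs), and `x'` determines `y'` (`54 y ≠ 0`): at most `(q - 1) q`; `x = 0`: `y = 0`, `y' = 0`, `x'` free: `q`.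
* The map `A ↦ (a ↦ (A(a), A'(a)))` from `PN F (2 q)` to `F → F × F` is injective (a polynomial of degree `< 2 q` divisible by `(X - C a) ^ 2` for all `a` is divisible by the product, of degree `2 q`, so it is `0`), hence bijective (both sides have `q ^ (2 q)` elements).
So the number of the pairs `(r, s)` is the number of the functions `F → {quadruples which are not bad}`, at least `(q ^ 4 - q ^ 2) ^ q` (`Fintype.card_fun`, `Fintype.card_pi`).
-/

set_option autoImplicit false

open Polynomial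

namespace Pool.Agent.Helper97.AS2

open Pool.Agent.Helper31.AR Pool.Agent.Helper97.AS

variable {F : Type} [Field F] [Fintype F]

omit [Fintype F] in
private theorem hl_sq_dvd (a : F) (f : F[X]) :
    (X - C a) ^ 2 ∣ f ↔ f.eval a = 0 ∧ (derivative f).eval a = 0 := by
  constructor
  · rintro ⟨g, rfl⟩
    constructor
    · simp
    · rw [derivative_mul, derivative_pow]
      simp
  · rintro ⟨h1, h2⟩
    obtain ⟨g, rfl⟩ := dvd_iff_isRoot.2 h1
    rw [derivative_mul, derivative_sub, derivative_X, derivative_C, sub_zero, one_mul,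
      eval_add, eval_mul, eval_sub, eval_X, eval_C, sub_self, zero_mul, add_zero] at h2
    obtain ⟨w, rfl⟩ := dvd_iff_isRoot.2 h2
    exact ⟨w, by ring⟩

omit [Fintype F] in
private theorem hl_dis (a : F) (A B : F[X]) :
    (dis A B).eval a = 4 * A.eval a ^ 3 + 27 * B.eval a ^ 2 ∧
      (derivative (dis A B)).eval a =
        12 * A.eval a ^ 2 * (derivative A).eval a + 54 * B.eval a * (derivative B).eval a := by
  unfold dis
  have e4 : (4 : F[X]) = C 4 := (map_ofNat C 4).symm
  have e27 : (27 : F[X]) = C 27 := (map_ofNat C 27).symm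
  constructor
  · rw [eval_add, e4, e27, eval_C_mul, eval_C_mul, eval_pow, eval_pow]
  · rw [derivative_add, e4, e27, derivative_C_mul, derivative_C_mul, derivative_pow,
      derivative_pow, eval_add, eval_C_mul, eval_C_mul]
    simp only [eval_mul, eval_pow, eval_C]
    push_cast
    norm_num
    ring

omit [Fintype F] in
private theorem hl_bad (a : F) (A B : F[X]) : Bad (X - C a) A B ↔
    (4 * A.eval a ^ 3 + 27 * B.eval a ^ 2 = 0 ∧
      12 * A.eval a ^ 2 * (derivative A).eval a + 54 * B.eval a * (derivative B).eval a = 0 ∧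
      (A.eval a = 0 → B.eval a = 0 ∧ (derivative B).eval a = 0)) := by
  unfold Bad
  rw [hl_sq_dvd, hl_sq_dvd, (hl_dis a A B).1, (hl_dis a A B).2, dvd_iff_isRoot, and_assoc]
  rfl

theorem bad_linear_iff (a : F) (A B : F[X]) : Bad (X - C a) A B ↔
    (4 * A.eval a ^ 3 + 27 * B.eval a ^ 2 = 0 ∧
      12 * A.eval a ^ 2 * (derivative A).eval a + 54 * B.eval a * (derivative B).eval a = 0 ∧
      (A.eval a = 0 → B.eval a = 0 ∧ (derivative B).eval a = 0)) :=
  hl_bad a A B

/-- the condition on the quadruples -/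
private def hlBad (u : (F × F) × (F × F)) : Prop :=
  4 * u.1.1 ^ 3 + 27 * u.2.1 ^ 2 = 0 ∧ 12 * u.1.1 ^ 2 * u.1.2 + 54 * u.2.1 * u.2.2 = 0 ∧
    (u.1.1 = 0 → u.2.1 = 0 ∧ u.2.2 = 0)

omit [Fintype F] in
private theorem hl_recon (h2 : (2 : F) ≠ 0) (h3 : (3 : F) ≠ 0) (x x' y y' : F)
    (h : hlBad ((x, x'), (y, y'))) (c : F) (hc : c = -3 * y / (2 * x)) :
    x = -3 * c ^ 2 ∧ y = 2 * c ^ 3 ∧ y' = -(12 * (-3 * c ^ 2) ^ 2 * x') / (54 * (2 * c ^ 3)) := by
  obtain ⟨ha, hb, hd⟩ := h
  change 4 * x ^ 3 + 27 * y ^ 2 = 0 at ha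
  change 12 * x ^ 2 * x' + 54 * y * y' = 0 at hb
  change x = 0 → y = 0 ∧ y' = 0 at hd
  by_cases hx : x = 0
  · obtain ⟨hy, hy'⟩ := hd hx
    subst hx hy hy'
    have hc0 : c = 0 := by rw [hc]; simp
    subst hc0
    simp
  · have h4 : (4 : F) ≠ 0 := by
      have : (4 : F) = 2 * 2 := by norm_num
      rw [this]
      exact mul_ne_zero h2 h2
    have h27 : (27 : F) ≠ 0 := by
      have : (27 : F) = 3 * 3 * 3 := by norm_num
      rw [this]
      exact mul_ne_zero (mul_ne_zero h3 h3) h3
    have h54 : (54 : F) ≠ 0 := by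
      have : (54 : F) = 2 * 27 := by norm_num
      rw [this]
      exact mul_ne_zero h2 h27
    have h2x : 2 * x ≠ 0 := mul_ne_zero h2 hx
    have hcx : c * (2 * x) = -3 * y := by rw [hc, div_mul_cancel₀ _ h2x]
    have hy : y ≠ 0 := by
      intro hy
      rw [hy] at ha
      have : 4 * x ^ 3 = 0 := by linear_combination ha
      exact mul_ne_zero h4 (pow_ne_zero 3 hx) this
    have e1 : x = -3 * c ^ 2 := by
      have h5 : 4 * x ^ 2 * (x + 3 * c ^ 2) = 0 := by
        linear_combination ha + 3 * (c * (2 * x) + (-3 * y)) * hcx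
      have h6 : x + 3 * c ^ 2 = 0 := by
        rcases mul_eq_zero.1 h5 with h | h
        · exact absurd h (mul_ne_zero h4 (pow_ne_zero 2 hx))
        · exact h
      linear_combination h6
    have e2 : y = 2 * c ^ 3 := by
      have h5 : 3 * (y - 2 * c ^ 3) = 0 := by
        linear_combination hcx - 2 * c * e1
      rcases mul_eq_zero.1 h5 with h | h
      · exact absurd h h3
      · linear_combination h
    refine ⟨e1, e2, ?_⟩
    rw [← e1, ← e2, eq_div_iff (mul_ne_zero h54 hy)]
    linear_combination hb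

open Classical in
private theorem hl_card_bad (h2 : (2 : F) ≠ 0) (h3 : (3 : F) ≠ 0) :
    (Finset.univ.filter (fun u : (F × F) × (F × F) => hlBad u)).card ≤ Fintype.card F ^ 2 := by
  have h : (Finset.univ.filter (fun u : (F × F) × (F × F) => hlBad u)).card ≤
      (Finset.univ : Finset (F × F)).card := by
    apply Finset.card_le_card_of_injOn (fun u => (-3 * u.2.1 / (2 * u.1.1), u.1.2))
    · intro u _
      exact Finset.mem_coe.2 (Finset.mem_univ _)
    · rintro ⟨⟨x, x'⟩, ⟨y, y'⟩⟩ hu ⟨⟨w, w'⟩, ⟨z, z'⟩⟩ hv huv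
      have hu' : hlBad ((x, x'), (y, y')) := (Finset.mem_filter.1 (Finset.mem_coe.1 hu)).2
      have hv' : hlBad ((w, w'), (z, z')) := (Finset.mem_filter.1 (Finset.mem_coe.1 hv)).2
      have e1 : -3 * y / (2 * x) = -3 * z / (2 * w) := congrArg Prod.fst huv
      have e2 : x' = w' := congrArg Prod.snd huv
      obtain ⟨a1, a2, a3⟩ := hl_recon h2 h3 x x' y y' hu' _ rfl
      obtain ⟨b1, b2, b3⟩ := hl_recon h2 h3 w w' z z' hv' _ e1
      have f1 : x = w := a1.trans b1.symm
      have f2 : y = z := a2.trans b2.symm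
      have f3 : y' = z' := by
        rw [a3, b3, e2]
      rw [f1, f2, f3, e2]
  rw [Finset.card_univ, Fintype.card_prod, ← pow_two] at h
  exact h

private theorem hl_surj (w : F → F × F) :
    ∃ A ∈ PN F (2 * Fintype.card F), ∀ a, (A.eval a, (derivative A).eval a) = w a := by
  classical
  let P : Finset F[X] := PN F (2 * Fintype.card F)
  have : Fintype {A // A ∈ P} := Finset.Subtype.fintype P
  let Ψ : {A // A ∈ P} → (F → F × F) :=
    fun A a => ((A : F[X]).eval a, (derivative (A : F[X])).eval a)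
  have hinj : Function.Injective Ψ := by
    rintro ⟨A, hA⟩ ⟨B, hB⟩ h
    have h1 : ∀ a, (X - C a) ^ 2 ∣ A - B := by
      intro a
      have h2 := congrFun h a
      have e1 : A.eval a = B.eval a := congrArg Prod.fst h2
      have e2 : (derivative A).eval a = (derivative B).eval a := congrArg Prod.snd h2
      rw [hl_sq_dvd, eval_sub, derivative_sub, eval_sub, e1, e2, sub_self, sub_self]
      exact ⟨rfl, rfl⟩
    have h2 : (∏ a : F, (X - C a) ^ 2) ∣ A - B := by
      apply Finset.prod_dvd_of_coprime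
      · intro a _ b _ hab
        change IsCoprime ((X - C a) ^ 2) ((X - C b) ^ 2)
        exact IsCoprime.pow (isCoprime_X_sub_C_of_isUnit_sub (IsUnit.mk0 _ (sub_ne_zero.2 hab)))
      · intro a _
        exact h1 a
    have h3 : (A - B).degree < ((2 * Fintype.card F : ℕ) : WithBot ℕ) := by
      rw [← mem_PN]
      exact sub_mem_PN hA hB
    have hmon : (∏ a : F, (X - C a) ^ 2).Monic :=
      monic_prod_of_monic _ _ fun a _ => (monic_X_sub_C a).pow 2
    have h4 : (∏ a : F, (X - C a) ^ 2).degree = ((2 * Fintype.card F : ℕ) : WithBot ℕ) := by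
      rw [degree_eq_natDegree hmon.ne_zero,
        natDegree_prod_of_monic _ _ fun a _ => (monic_X_sub_C a).pow 2]
      congr 1
      have : ∀ a ∈ (Finset.univ : Finset F), ((X - C a) ^ 2).natDegree = 2 := by
        intro a _
        rw [natDegree_pow, natDegree_X_sub_C]
      rw [Finset.sum_congr rfl this, Finset.sum_const, Finset.card_univ, smul_eq_mul, mul_comm]
    have h5 : A - B = 0 := by
      by_contra hne
      have h6 := degree_le_of_dvd h2 hne
      rw [h4] at h6
      exact absurd h6 (not_le.2 h3)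
    exact Subtype.ext (sub_eq_zero.1 h5)
  have hcard : Fintype.card {A // A ∈ P} = Fintype.card (F → F × F) := by
    rw [Fintype.card_coe, card_PN, Fintype.card_fun, Fintype.card_prod, ← pow_two, ← pow_mul]
  have hsurj := ((Fintype.bijective_iff_injective_and_card Ψ).2 ⟨hinj, hcard⟩).2
  obtain ⟨A, hA⟩ := hsurj w
  exact ⟨A, A.2, fun a => congrFun hA a⟩

open Classical in
theorem hermite_local (h2 : (2 : F) ≠ 0) (h3 : (3 : F) ≠ 0) :
    (Fintype.card F ^ 4 - Fintype.card F ^ 2) ^ Fintype.card F ≤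
      ((PN F (2 * Fintype.card F) ×ˢ PN F (2 * Fintype.card F)).filter
        (fun p => ∀ a : F, ¬ Bad (X - C a) p.1 p.2)).card := by
  set S : Finset ((F × F) × (F × F)) := Finset.univ.filter (fun u => hlBad u) with hS
  have hcS : S.card ≤ Fintype.card F ^ 2 := hl_card_bad h2 h3
  have h1 : (Fintype.piFinset (fun _ : F => Sᶜ)).card ≤
      ((PN F (2 * Fintype.card F) ×ˢ PN F (2 * Fintype.card F)).filter
        (fun p => ∀ a : F, ¬ Bad (X - C a) p.1 p.2)).card := by
    apply Finset.card_le_card_of_surjOn (fun p : F[X] × F[X] => fun a : F =>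
      ((p.1.eval a, (derivative p.1).eval a), (p.2.eval a, (derivative p.2).eval a)))
    intro g hg
    rw [Finset.mem_coe, Fintype.mem_piFinset] at hg
    obtain ⟨A, hA, hA'⟩ := hl_surj (fun a => (g a).1)
    obtain ⟨B, hB, hB'⟩ := hl_surj (fun a => (g a).2)
    have hgab : ∀ a, ((A.eval a, (derivative A).eval a), (B.eval a, (derivative B).eval a)) = g a := by
      intro a
      rw [hA' a, hB' a]
    refine ⟨(A, B), ?_, funext hgab⟩
    rw [Finset.mem_coe, Finset.mem_filter, Finset.mem_product]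
    refine ⟨⟨hA, hB⟩, fun a hbad => ?_⟩
    have h4 := hg a
    rw [Finset.mem_compl, hS, Finset.mem_filter] at h4
    apply h4
    refine ⟨Finset.mem_univ _, ?_⟩
    rw [← hgab a]
    exact (bad_linear_iff a A B).1 hbad
  refine le_trans ?_ h1
  rw [Fintype.card_piFinset, Finset.prod_const, Finset.card_univ, Finset.card_compl]
  apply Nat.pow_le_pow_left
  have h5 : Fintype.card ((F × F) × (F × F)) = Fintype.card F ^ 4 := by
    rw [Fintype.card_prod, Fintype.card_prod]
    ring
  rw [h5]
  omega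

end Pool.Agent.Helper97.AS2
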