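import Pool.Agent.Helper97.AS2.Defs
import Pool.Agent.Helper97.AS.RootParity
import Pool.Agent.Helper97.AS.TwistOrd

/-!
# AS2-04 OddOrd (short)

As `AS/OddOrd.lean`: `Q.natDegree + 4 = condDeg A B + 2` is odd, all roots of absolute value `q`: `root_parity` gives `Even (natDegree + (ord F Q + rootMultiplicity (- q) Q))`, so `ord F Q + rootMultiplicity (- q) Q` is odd, and
`ord F Q' = rootMultiplicity (- q) Q` (`ord_twist` at `n + 1`).
-/

set_option autoImplicit false

open Polynomial

namespace Pool.Agent.Helper97.AS2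

open Pool.Agent.Helper31.AR Pool.Agent.Helper97.AS

variable {F : Type} [Field F] [Fintype F]

theorem odd_ord_add (h2 : (2 : F) ≠ 0) {c : F} (hc : ¬ IsSquare c) {n : ℕ} {A B : F[X]}
    {Q Q' : ℤ[X]} (h : IsFrobS n A B Q) (h' : IsFrobS n (C (c ^ 2) * A) (C (c ^ 3) * B) Q')
    (hmin : Min (n + 1) A B) (hdis : dis A B ≠ 0) (hodd : Odd (condDeg A B)) :
    Odd (ord F Q + ord F Q') := by
  have h1 := root_parity Q h.toIsFrob.monic (Fintype.card F) Fintype.card_pos
    (h.norm_eq hmin hdis)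
  rw [← ord_twist h2 hc h.toIsFrob h'.toIsFrob] at h1
  have h3 : Q.rootMultiplicity (Fintype.card F : ℤ) = ord F Q := rfl
  rw [h3] at h1
  have h4 := h.natDegree_eq hmin hdis
  rw [Nat.odd_iff] at hodd ⊢
  rw [Nat.even_iff] at h1
  omega

end Pool.Agent.Helper97.AS2
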